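import Mathlib
import Pool.Agent.R870.RC.Defs

set_option autoImplicit false

/-! # Random families: definitions -/

namespace Pool.Agent.R870.RC

open MvPolynomial

/-- the polynomials in the parameters `t_1, …, t_m`, of degree at most `e j` in `t_j`, with integer
coefficients of absolute value at most `H` -/
def PolyBox {m : ℕ} (e : Fin m → ℕ) (H : ℕ) : Set (MvPolynomial (Fin m) ℤ) :=
  {c | (∀ j, c.degreeOf j ≤ e j) ∧ ∀ a, |c.coeff a| ≤ H}

/-- the systems of `s` forms of degrees `d_1, …, d_s` in `n + 1` variables, the coefficients of which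
are polynomials in `t_1, …, t_m`, of degree at most `e j` in `t_j`, with integer coefficients of
absolute value at most `H` -/
def Families (n : ℕ) {s m : ℕ} (d : Fin s → ℕ) (e : Fin m → ℕ) (H : ℕ) :
    Set (Fin s → MvPolynomial (Fin (n + 1)) (MvPolynomial (Fin m) ℤ)) :=
  {F | ∀ i, (F i).IsHomogeneous (d i) ∧ ∀ a, (F i).coeff a ∈ PolyBox e H}

/-- the systems which have a common zero `x`, with coordinates `x_l (t)` in the polynomial ring
`ℤ[t_1, …, t_m]`, such that for each of the points `τ` of the grid `0 ≤ τ_j ≤ e_j` the vector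
`x (τ)` is not zero and has coordinates of absolute value at most `B` -/
def FamPoint (n : ℕ) {s m : ℕ} (d : Fin s → ℕ) (e : Fin m → ℕ) (H B : ℕ) :
    Set (Fin s → MvPolynomial (Fin (n + 1)) (MvPolynomial (Fin m) ℤ)) :=
  {F | F ∈ Families n d e H ∧ ∃ x : Fin (n + 1) → MvPolynomial (Fin m) ℤ,
    (∀ τ : Fin m → ℤ, (∀ j, 0 ≤ τ j ∧ τ j ≤ e j) →
      (∃ l, eval τ (x l) ≠ 0) ∧ ∀ l, |eval τ (x l)| ≤ B) ∧
    ∀ i, eval x (F i) = 0}

/-- the systems for which all the fibres over the points `τ` of the grid `0 ≤ τ_j ≤ e_j` have a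
rational point of height at most `B` -/
def FibPoint (n : ℕ) {s m : ℕ} (d : Fin s → ℕ) (e : Fin m → ℕ) (H B : ℕ) :
    Set (Fin s → MvPolynomial (Fin (n + 1)) (MvPolynomial (Fin m) ℤ)) :=
  {F | F ∈ Families n d e H ∧ ∀ τ : Fin m → ℤ, (∀ j, 0 ≤ τ j ∧ τ j ≤ e j) →
    ∃ y : Fin (n + 1) → ℤ, y ≠ 0 ∧ (∀ l, |y l| ≤ B) ∧ ∀ i, eval y (map (eval τ) (F i)) = 0}

end Pool.Agent.R870.RC
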