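import Mathlib
import Pool.Agent.R870.RF.Defs
import Pool.Agent.R870.RC.Low

set_option autoImplicit false

/-! # Random families -/

namespace Pool.Agent.R870.RC

open MvPolynomial Finset

section general

variable {σ R : Type} [CommRing R]

/-- the polynomials with exponents in `M` and coefficients in `P` -/
noncomputable def FP (M : Finset (σ →₀ ℕ)) (P : Finset R) : Finset (MvPolynomial σ R) := by
  classical
  exact (Fintype.piFinset (fun _ : M => P)).image (fun c => ∑ a : M, monomial a.1 (c a))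

theorem coeff_sumM (M : Finset (σ →₀ ℕ)) (c : M → R) (m : σ →₀ ℕ) :
    (∑ a : M, monomial a.1 (c a) : MvPolynomial σ R).coeff m =
      open Classical in if h : m ∈ M then c ⟨m, h⟩ else 0 := by
  classical
  rw [coeff_sum]
  by_cases h : m ∈ M
  · rw [dif_pos h, Finset.sum_eq_single ⟨m, h⟩]
    · rw [coeff_monomial, if_pos rfl]
    · intro b _ hb
      rw [coeff_monomial, if_neg]
      intro h2
      exact hb (Subtype.ext h2)
    · intro h2
      exact absurd (Finset.mem_univ _) h2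
  · rw [dif_neg h]
    refine Finset.sum_eq_zero fun b _ => ?_
    rw [coeff_monomial, if_neg]
    intro h2
    exact h (h2 ▸ b.2)

theorem mem_FP {M : Finset (σ →₀ ℕ)} {P : Finset R} (h0 : 0 ∈ P) (F : MvPolynomial σ R) :
    F ∈ FP M P ↔ (F.support ⊆ M ∧ ∀ a, F.coeff a ∈ P) := by
  classical
  unfold FP
  rw [Finset.mem_image]
  constructor
  · rintro ⟨c, hc, rfl⟩
    constructor
    · intro m hm
      by_contra h
      rw [MvPolynomial.mem_support_iff, coeff_sumM, dif_neg h] at hm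
      exact hm rfl
    · intro m
      rw [coeff_sumM]
      by_cases h : m ∈ M
      · rw [dif_pos h]
        exact Fintype.mem_piFinset.1 hc ⟨m, h⟩
      · rw [dif_neg h]
        exact h0
  · rintro ⟨h1, h2⟩
    refine ⟨fun a => F.coeff a.1, Fintype.mem_piFinset.2 fun a => h2 _, ?_⟩
    ext m
    rw [coeff_sumM]
    by_cases h : m ∈ M
    · rw [dif_pos h]
    · rw [dif_neg h]
      by_contra h3
      exact h (h1 (MvPolynomial.mem_support_iff.2 (Ne.symm h3)))

theorem card_FP (M : Finset (σ →₀ ℕ)) (P : Finset R) : (FP M P).card = P.card ^ M.card := by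
  classical
  unfold FP
  rw [Finset.card_image_of_injective, Fintype.card_piFinset, Finset.prod_const, Finset.card_univ,
    Fintype.card_coe]
  intro c c' h
  funext a
  have h1 := congrArg (fun F => MvPolynomial.coeff a.1 F) h
  simp only [coeff_sumM, a.2, dif_pos] at h1
  exact h1

end general

variable {n : ℕ}

/-- the exponents of the parameters -/
noncomputable def Ex {m : ℕ} (e : Fin m → ℕ) : Finset (Fin m →₀ ℕ) := by
  classical
  exact (Fintype.piFinset fun j => Finset.range (e j + 1)).image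
    (fun a => Finsupp.equivFunOnFinite.symm a)

theorem mem_Ex {m : ℕ} (e : Fin m → ℕ) (a : Fin m →₀ ℕ) : a ∈ Ex e ↔ ∀ j, a j ≤ e j := by
  classical
  unfold Ex
  rw [Finset.mem_image]
  constructor
  · rintro ⟨b, hb, rfl⟩ j
    have := Finset.mem_range.1 (Fintype.mem_piFinset.1 hb j)
    show b j ≤ e j
    omega
  · intro h
    refine ⟨fun j => a j, Fintype.mem_piFinset.2 fun j => Finset.mem_range.2 (by
      have := h j
      omega), ?_⟩
    ext j
    rfl

theorem card_Ex {m : ℕ} (e : Fin m → ℕ) : (Ex e).card = ∏ j, (e j + 1) := by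
  classical
  unfold Ex
  rw [Finset.card_image_of_injective _ (Equiv.injective _), Fintype.card_piFinset]
  simp

/-- the coefficient polynomials -/
noncomputable def PB {m : ℕ} (e : Fin m → ℕ) (H : ℕ) : Finset (MvPolynomial (Fin m) ℤ) :=
  FP (Ex e) (Finset.Icc (-(H : ℤ)) H)

theorem mem_PB {m : ℕ} (e : Fin m → ℕ) (H : ℕ) (c : MvPolynomial (Fin m) ℤ) :
    c ∈ PB e H ↔ c ∈ PolyBox e H := by
  unfold PB PolyBox
  rw [mem_FP (Finset.mem_Icc.2 ⟨by simp, by simp⟩)]
  refine and_congr ?_ ?_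
  · constructor
    · intro h j
      rw [MvPolynomial.degreeOf_le_iff]
      intro a ha
      exact (mem_Ex e a).1 (h ha) j
    · intro h a ha
      rw [mem_Ex]
      intro j
      exact (MvPolynomial.degreeOf_le_iff.1 (h j)) a ha
  · refine forall_congr' fun a => ?_
    rw [Finset.mem_Icc, ← abs_le]

theorem zero_mem_PB {m : ℕ} (e : Fin m → ℕ) (H : ℕ) : (0 : MvPolynomial (Fin m) ℤ) ∈ PB e H := by
  rw [mem_PB]
  refine ⟨fun j => ?_, fun a => ?_⟩
  · rw [MvPolynomial.degreeOf_zero]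
    exact Nat.zero_le _
  · rw [coeff_zero, abs_zero]
    exact Nat.cast_nonneg H

theorem card_PB {m : ℕ} (e : Fin m → ℕ) (H : ℕ) :
    (PB e H).card = (2 * H + 1) ^ (∏ j, (e j + 1)) := by
  unfold PB
  rw [card_FP, card_Ex]
  have h : (Finset.Icc (-(H : ℤ)) H).card = 2 * H + 1 := by
    rw [Int.card_Icc]
    omega
  rw [h]

theorem hom_iff {R : Type} [CommRing R] (d : ℕ) (F : MvPolynomial (Fin (n + 1)) R) :
    F.support ⊆ Mo n d ↔ F.IsHomogeneous d := by
  constructor
  · intro h m hm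
    have h1 := (mem_Mo m).1 (h (MvPolynomial.mem_support_iff.2 hm))
    rw [Finsupp.degree_eq_weight_one] at h1
    exact h1
  · intro h m hm
    rw [mem_Mo, Finsupp.degree_eq_weight_one]
    exact h (MvPolynomial.mem_support_iff.1 hm)

theorem families_eq {s m : ℕ} (d : Fin s → ℕ) (e : Fin m → ℕ) (H : ℕ) :
    Families n d e H = (Fintype.piFinset fun i => FP (Mo n (d i)) (PB e H) : Finset _) := by
  classical
  ext F
  rw [Finset.mem_coe, Fintype.mem_piFinset]
  refine forall_congr' fun i => ?_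
  rw [mem_FP (zero_mem_PB e H), hom_iff]
  refine and_congr Iff.rfl (forall_congr' fun a => ?_)
  exact (mem_PB e H _).symm

theorem fin_families {s m : ℕ} (d : Fin s → ℕ) (e : Fin m → ℕ) (H : ℕ) :
    (Families n d e H).Finite := by
  rw [families_eq]
  exact Finset.finite_toSet _

theorem card_families {s m : ℕ} (d : Fin s → ℕ) (e : Fin m → ℕ) (H : ℕ) :
    (Families n d e H).ncard =
      ((2 * H + 1) ^ (∑ i, (n + d i).choose (d i))) ^ (∏ j, (e j + 1)) := by
  classical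
  rw [families_eq, Set.ncard_coe_finset, Fintype.card_piFinset]
  have h1 : ∀ i, (FP (Mo n (d i)) (PB e H)).card =
      ((2 * H + 1) ^ (∏ j, (e j + 1))) ^ ((n + d i).choose (d i)) := by
    intro i
    rw [card_FP, card_PB, card_Mo]
  rw [Finset.prod_congr rfl fun i _ => h1 i, Finset.prod_pow_eq_pow_sum, ← pow_mul, ← pow_mul,
    mul_comm (∏ j, (e j + 1))]

/-- the grid -/
noncomputable def Gr {m : ℕ} (e : Fin m → ℕ) : Finset (Fin m → ℤ) :=
  Fintype.piFinset fun j => Finset.Icc 0 (e j : ℤ)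

theorem mem_Gr {m : ℕ} (e : Fin m → ℕ) (τ : Fin m → ℤ) :
    τ ∈ Gr e ↔ ∀ j, 0 ≤ τ j ∧ τ j ≤ e j := by
  unfold Gr
  rw [Fintype.mem_piFinset]
  exact forall_congr' fun j => Finset.mem_Icc

theorem card_Gr {m : ℕ} (e : Fin m → ℕ) : (Gr e).card = ∏ j, (e j + 1) := by
  unfold Gr
  rw [Fintype.card_piFinset]
  refine Finset.prod_congr rfl fun j _ => ?_
  rw [Int.card_Icc]
  omega

/-- the growth factor -/
def KK {m : ℕ} (e : Fin m → ℕ) : ℕ := (∏ j, (e j + 1)) * ∏ j, (e j + 1) ^ e j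

theorem KK_pos {m : ℕ} (e : Fin m → ℕ) : 1 ≤ KK e := by
  unfold KK
  exact Nat.mul_pos (Finset.prod_pos fun j _ => Nat.succ_pos _)
    (Finset.prod_pos fun j _ => pow_pos (Nat.succ_pos _) _)

theorem eval_poly_le {m : ℕ} (e : Fin m → ℕ) (H : ℕ) (c : MvPolynomial (Fin m) ℤ)
    (hc : c ∈ PolyBox e H) (τ : Fin m → ℤ) (hτ : τ ∈ Gr e) :
    |eval τ c| ≤ ((KK e * H : ℕ) : ℤ) := by
  classical
  rw [mem_Gr] at hτ
  have hsub : c.support ⊆ Ex e := by
    intro a ha
    rw [mem_Ex]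
    intro j
    exact (MvPolynomial.degreeOf_le_iff.1 (hc.1 j)) a ha
  rw [MvPolynomial.eval_eq']
  refine (Finset.abs_sum_le_sum_abs _ _).trans ?_
  have h1 : ∀ a ∈ c.support, |c.coeff a * ∏ j, τ j ^ a j| ≤
      (H : ℤ) * ((∏ j, (e j + 1) ^ e j : ℕ) : ℤ) := by
    intro a ha
    rw [abs_mul, Finset.abs_prod]
    refine mul_le_mul (hc.2 a) ?_ (Finset.prod_nonneg fun _ _ => abs_nonneg _) (Nat.cast_nonneg H)
    rw [Nat.cast_prod]
    refine Finset.prod_le_prod (fun _ _ => abs_nonneg _) fun j _ => ?_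
    rw [abs_pow, abs_of_nonneg (hτ j).1]
    push_cast
    have h2 : a j ≤ e j := (mem_Ex e a).1 (hsub ha) j
    have h3 : τ j ≤ (e j : ℤ) + 1 := by
      have := (hτ j).2
      omega
    calc τ j ^ a j ≤ ((e j : ℤ) + 1) ^ a j := pow_le_pow_left₀ (hτ j).1 h3 _
      _ ≤ ((e j : ℤ) + 1) ^ e j := pow_le_pow_right₀ (by omega) h2
  refine (Finset.sum_le_sum h1).trans ?_
  rw [Finset.sum_const, nsmul_eq_mul]
  have h4 : (c.support.card : ℤ) ≤ ((∏ j, (e j + 1) : ℕ) : ℤ) := by
    rw [← card_Ex]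
    exact_mod_cast Finset.card_le_card hsub
  have h5 : (0 : ℤ) ≤ (H : ℤ) * ((∏ j, (e j + 1) ^ e j : ℕ) : ℤ) := by positivity
  refine (mul_le_mul_of_nonneg_right h4 h5).trans (le_of_eq ?_)
  unfold KK
  push_cast
  ring

/-- the specialization is injective -/
theorem spec_inj {m : ℕ} (e : Fin m → ℕ) (c c' : MvPolynomial (Fin m) ℤ)
    (hc : ∀ j, c.degreeOf j ≤ e j) (hc' : ∀ j, c'.degreeOf j ≤ e j)
    (h : ∀ τ ∈ Gr e, eval τ c = eval τ c') : c = c' := by
  have h1 : c - c' = 0 := by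
    refine eq_zero_of_eval_zero_at_prod_finset (c - c') (fun j => Finset.Icc 0 (e j : ℤ)) ?_ ?_
    · intro j
      have h2 : (Finset.Icc 0 (e j : ℤ)).card = e j + 1 := by
        rw [Int.card_Icc]
        omega
      rw [h2]
      have h3 := MvPolynomial.degreeOf_sub_le j c c'
      have h4 := max_le (hc j) (hc' j)
      omega
    · intro τ hτ
      have h2 : τ ∈ Gr e := by
        rw [mem_Gr]
        intro j
        exact Finset.mem_Icc.1 (hτ j)
      rw [map_sub, h τ h2, sub_self]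
  exact sub_eq_zero.1 h1

theorem fam_sub {s m : ℕ} (d : Fin s → ℕ) (e : Fin m → ℕ) (H B : ℕ) :
    FamPoint n d e H B ⊆ FibPoint n d e H B := by
  rintro F ⟨h1, x, h2, h3⟩
  refine ⟨h1, fun τ hτ => ?_⟩
  obtain ⟨⟨l, hl⟩, h5⟩ := h2 τ hτ
  refine ⟨fun l => eval τ (x l), ?_, h5, fun i => ?_⟩
  · intro h
    exact hl (congrFun h l)
  · have h7 := MvPolynomial.eval₂_comp_left (eval τ) (RingHom.id _) x (F i)
    rw [MvPolynomial.eval₂_id, h3 i, map_zero, RingHom.comp_id] at h7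
    rw [MvPolynomial.eval_map]
    exact h7.symm

theorem spec_mem {s m : ℕ} (d : Fin s → ℕ) (e : Fin m → ℕ) (H B : ℕ)
    (F : Fin s → MvPolynomial (Fin (n + 1)) (MvPolynomial (Fin m) ℤ))
    (hF : F ∈ FibPoint n d e H B) (τ : Fin m → ℤ) (hτ : τ ∈ Gr e) :
    (fun i => map (eval τ) (F i)) ∈ WithPoint n d (KK e * H) B := by
  obtain ⟨h1, h2⟩ := hF
  refine ⟨fun i => ⟨(h1 i).1.map _, fun a => ?_⟩, h2 τ ((mem_Gr e τ).1 hτ)⟩
  rw [coeff_map]
  exact eval_poly_le e H _ ((h1 i).2 a) τ hτ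

theorem fin_fam {s m : ℕ} (d : Fin s → ℕ) (e : Fin m → ℕ) (H B : ℕ) :
    (FamPoint n d e H B).Finite :=
  (fin_families (n := n) d e H).subset fun _ hF => hF.1

theorem fin_fib {s m : ℕ} (d : Fin s → ℕ) (e : Fin m → ℕ) (H B : ℕ) :
    (FibPoint n d e H B).Finite :=
  (fin_families (n := n) d e H).subset fun _ hF => hF.1

theorem card_fib_le {s m : ℕ} (d : Fin s → ℕ) (e : Fin m → ℕ) (H B : ℕ) :
    (FibPoint n d e H B).ncard ≤ ((WithPoint n d (KK e * H) B).ncard) ^ (∏ j, (e j + 1)) := by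
  classical
  have hfin := fin_point (n := n) d (KK e * H) B
  have h1 : (FibPoint n d e H B).ncard ≤
      (Fintype.piFinset (fun _ : Gr e => hfin.toFinset)).card := by
    rw [Set.ncard_eq_toFinset_card _ (fin_fib d e H B)]
    refine Finset.card_le_card_of_injOn
      (fun F (τ : Gr e) i => map (eval τ.1) (F i)) ?_ ?_
    · intro F hF
      rw [Finset.mem_coe, Set.Finite.mem_toFinset] at hF
      rw [Finset.mem_coe, Fintype.mem_piFinset]
      intro τ
      rw [Set.Finite.mem_toFinset]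
      exact spec_mem d e H B F hF τ.1 τ.2
    · intro F hF F' hF' h
      rw [Finset.mem_coe, Set.Finite.mem_toFinset] at hF hF'
      funext i
      ext1 a
      refine spec_inj e _ _ ((hF.1 i).2 a).1 ((hF'.1 i).2 a).1 fun τ hτ => ?_
      have h2 := congrFun (congrFun h ⟨τ, hτ⟩) i
      have h3 : map (eval τ) (F i) = map (eval τ) (F' i) := h2
      have h4 := congrArg (MvPolynomial.coeff a) h3
      rw [coeff_map, coeff_map] at h4
      exact h4
  refine h1.trans (le_of_eq ?_)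
  rw [Fintype.card_piFinset, Finset.prod_const, Finset.card_univ, Fintype.card_coe, card_Gr,
    Set.ncard_eq_toFinset_card _ hfin]

/-- the value at the constant unit vector -/
theorem eval_unitR {R : Type} [CommRing R] {d : ℕ} (F : MvPolynomial (Fin (n + 1)) R)
    (hF : F.IsHomogeneous d) :
    eval (fun j : Fin (n + 1) => if j = 0 then (1 : R) else 0) F =
      F.coeff (Finsupp.single 0 d) := by
  classical
  rw [MvPolynomial.eval_eq', Finset.sum_eq_single (Finsupp.single 0 d)]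
  · have h1 : ∏ i : Fin (n + 1), (if i = 0 then (1 : R) else 0) ^
        (Finsupp.single (0 : Fin (n + 1)) d) i = 1 := by
      refine Finset.prod_eq_one fun i _ => ?_
      by_cases hi : i = 0
      · rw [if_pos hi, one_pow]
      · rw [Finsupp.single_eq_of_ne hi, pow_zero]
    rw [h1, mul_one]
  · intro m hm hne
    have h4 := hF (MvPolynomial.mem_support_iff.1 hm)
    have hsum : ∑ j, m j = d := by
      rw [← h4, Finsupp.weight_apply, Finsupp.sum_fintype _ _ (by simp)]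
      simp
    obtain ⟨j, hj0, hj⟩ : ∃ j, j ≠ 0 ∧ m j ≠ 0 := by
      by_contra hno
      push Not at hno
      apply hne
      have h5 : m 0 = d := by
        rw [← hsum, Fin.sum_univ_succ, Finset.sum_eq_zero (fun i _ => hno _ (Fin.succ_ne_zero i)),
          add_zero]
      ext i
      by_cases hi : i = 0
      · subst hi
        rw [Finsupp.single_eq_same, h5]
      · rw [Finsupp.single_eq_of_ne hi]
        exact hno i hi
    have h1 : ∏ i : Fin (n + 1), (if i = 0 then (1 : R) else 0) ^ m i = 0 := by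
      refine Finset.prod_eq_zero (Finset.mem_univ j) ?_
      rw [if_neg hj0]
      exact zero_pow hj
    rw [h1, mul_zero]
  · intro h
    rw [MvPolynomial.notMem_support_iff.1 h, zero_mul]

/-- the families with the constant section `e0` -/
noncomputable def zf (n : ℕ) {s m : ℕ} (d : Fin s → ℕ) (e : Fin m → ℕ) (H : ℕ) :
    Finset (Fin s → MvPolynomial (Fin (n + 1)) (MvPolynomial (Fin m) ℤ)) := by
  classical
  exact Fintype.piFinset fun i => FP ((Mo n (d i)).erase (Finsupp.single 0 (d i))) (PB e H)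

theorem zf_sub {s m : ℕ} (d : Fin s → ℕ) (e : Fin m → ℕ) (H B : ℕ) (hB : 1 ≤ B) :
    ((zf n d e H : Finset _) :
      Set (Fin s → MvPolynomial (Fin (n + 1)) (MvPolynomial (Fin m) ℤ))) ⊆
      FamPoint n d e H B := by
  classical
  intro F hF
  unfold zf at hF
  rw [Finset.mem_coe, Fintype.mem_piFinset] at hF
  have h1 : ∀ i, (F i).support ⊆ (Mo n (d i)).erase (Finsupp.single 0 (d i)) ∧
      ∀ a, (F i).coeff a ∈ PB e H := fun i => (mem_FP (zero_mem_PB e H) (F i)).1 (hF i)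
  have hhom : ∀ i, (F i).IsHomogeneous (d i) := fun i =>
    (hom_iff (d i) (F i)).1 ((h1 i).1.trans (Finset.erase_subset _ _))
  refine ⟨fun i => ⟨hhom i, fun a => (mem_PB e H _).1 ((h1 i).2 a)⟩,
    fun j => if j = 0 then 1 else 0, fun τ _ => ⟨⟨0, ?_⟩, fun l => ?_⟩, fun i => ?_⟩
  · show eval τ (if (0 : Fin (n + 1)) = 0 then (1 : MvPolynomial (Fin m) ℤ) else 0) ≠ 0
    rw [if_pos rfl, map_one]
    exact one_ne_zero
  · show |eval τ (if l = 0 then (1 : MvPolynomial (Fin m) ℤ) else 0)| ≤ (B : ℤ)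
    by_cases hl : l = 0
    · rw [if_pos hl, map_one, abs_one]
      exact_mod_cast hB
    · rw [if_neg hl, map_zero, abs_zero]
      exact Nat.cast_nonneg B
  · rw [eval_unitR (F i) (hhom i)]
    by_contra h
    have h2 := (h1 i).1 (MvPolynomial.mem_support_iff.2 h)
    exact (Finset.mem_erase.1 h2).1 rfl

theorem card_zf {s m : ℕ} (d : Fin s → ℕ) (e : Fin m → ℕ) (H : ℕ) :
    (zf n d e H).card * ((2 * H + 1) ^ (∏ j, (e j + 1))) ^ s = (Families n d e H).ncard := by
  classical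
  rw [families_eq, Set.ncard_coe_finset, Fintype.card_piFinset]
  unfold zf
  rw [Fintype.card_piFinset]
  have h0 : ((2 * H + 1) ^ (∏ j, (e j + 1))) ^ s = ∏ _i : Fin s, (PB e H).card := by
    rw [Finset.prod_const, Finset.card_univ, Fintype.card_fin, card_PB]
  rw [h0, ← Finset.prod_mul_distrib]
  refine Finset.prod_congr rfl fun i _ => ?_
  rw [card_FP, card_FP]
  have h1 : Finsupp.single 0 (d i) ∈ Mo n (d i) := by
    rw [mem_Mo]
    exact Finsupp.degree_single _ _
  rw [Finset.card_erase_of_mem h1, ← pow_succ]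
  congr 1
  have h2 : 1 ≤ (Mo n (d i)).card := Finset.card_pos.2 ⟨_, h1⟩
  omega

/-- **Random families.** -/
theorem families (n s m : ℕ) (d : Fin s → ℕ) (e : Fin m → ℕ) (hd : n + 2 ≤ ∑ i, d i) :
    ∃ c C : ℝ, 0 < c ∧ ∀ H B : ℕ, 1 ≤ H → 1 ≤ B →
      (Families n d e H).Finite ∧
      (Families n d e H).ncard =
        ((2 * H + 1) ^ (∑ i, (n + d i).choose (d i))) ^ (∏ j, (e j + 1)) ∧
      c / (H : ℝ) ^ (s * ∏ j, (e j + 1)) * ((Families n d e H).ncard : ℝ) ≤
        ((FamPoint n d e H B).ncard : ℝ) ∧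
      FamPoint n d e H B ⊆ FibPoint n d e H B ∧
      ((FibPoint n d e H B).ncard : ℝ) ≤ C / (H : ℝ) ^ (s * ∏ j, (e j + 1)) *
        (1 + (B : ℝ) ^ (n + 1) / (H : ℝ) ^ (∑ i, d i)) ^ (∏ j, (e j + 1)) *
          ((Families n d e H).ncard : ℝ) := by
  classical
  obtain ⟨c₀, C, _, hC⟩ := main n s d hd
  set E : ℕ := ∏ j, (e j + 1) with hE
  set K : ℕ := KK e with hK
  have hK1 : 1 ≤ K := KK_pos e
  have hKr : (1 : ℝ) ≤ K := by exact_mod_cast hK1
  set N : ℕ := ∑ i, (n + d i).choose (d i) with hN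
  refine ⟨(1 / 3) ^ (s * E), (|C| * (K : ℝ) ^ N) ^ E, by positivity, fun H B hH hB =>
    ⟨fin_families d e H, card_families d e H, ?_, fam_sub d e H B, ?_⟩⟩
  · have hHr : (1 : ℝ) ≤ H := by exact_mod_cast hH
    have h2 := Set.ncard_le_ncard (zf_sub (n := n) d e H B hB) (fin_fam d e H B)
    rw [Set.ncard_coe_finset] at h2
    have h3 : ((zf n d e H).card : ℝ) ≤ ((FamPoint n d e H B).ncard : ℝ) := Nat.cast_le.2 h2
    refine le_trans ?_ h3
    rw [← card_zf d e H, ← hE]
    push_cast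
    have h4 : ((2 * (H : ℝ) + 1) ^ E) ^ s ≤ ((3 * (H : ℝ)) ^ E) ^ s :=
      pow_le_pow_left₀ (by positivity) (pow_le_pow_left₀ (by positivity) (by linarith) _) _
    have h5 : (0 : ℝ) ≤ ((zf n d e H).card : ℝ) := Nat.cast_nonneg _
    have h6 : (1 / 3 : ℝ) ^ (s * E) / (H : ℝ) ^ (s * E) * ((3 * (H : ℝ)) ^ E) ^ s = 1 := by
      rw [← pow_mul, mul_comm E s, mul_pow, div_mul_eq_mul_div, ← mul_assoc, ← mul_pow]
      rw [div_eq_one_iff_eq (by positivity)]
      norm_num
    calc (1 / 3 : ℝ) ^ (s * E) / (H : ℝ) ^ (s * E) *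
          (((zf n d e H).card : ℝ) * ((2 * (H : ℝ) + 1) ^ E) ^ s)
        ≤ (1 / 3 : ℝ) ^ (s * E) / (H : ℝ) ^ (s * E) *
          (((zf n d e H).card : ℝ) * ((3 * (H : ℝ)) ^ E) ^ s) :=
          mul_le_mul_of_nonneg_left (mul_le_mul_of_nonneg_left h4 h5) (by positivity)
      _ = ((1 / 3 : ℝ) ^ (s * E) / (H : ℝ) ^ (s * E) * ((3 * (H : ℝ)) ^ E) ^ s) *
          ((zf n d e H).card : ℝ) := by ring
      _ = _ := by rw [h6, one_mul]
  · have hHr : (1 : ℝ) ≤ H := by exact_mod_cast hH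
    have hH0 : (0 : ℝ) < H := by linarith
    obtain ⟨-, h1, -, h2⟩ := hC (K * H) B (Nat.mul_pos hK1 hH) hB
    have h3 : ((FibPoint n d e H B).ncard : ℝ) ≤
        ((WithPoint n d (K * H) B).ncard : ℝ) ^ E := by exact_mod_cast card_fib_le d e H B
    refine h3.trans ?_
    rw [h1] at h2
    push_cast at h2
    have h4 : ((WithPoint n d (K * H) B).ncard : ℝ) ≤ |C| * (K : ℝ) ^ N *
        (1 / (H : ℝ) ^ s * (1 + (B : ℝ) ^ (n + 1) / (H : ℝ) ^ (∑ i, d i)) *
          (2 * (H : ℝ) + 1) ^ N) := by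
      refine h2.trans ?_
      have hKH : (H : ℝ) ≤ K * H := by nlinarith
      have e1 : C / ((K : ℝ) * H) ^ s ≤ |C| * (1 / (H : ℝ) ^ s) := by
        rw [mul_one_div]
        refine (div_le_div_of_nonneg_right (le_abs_self C) (by positivity)).trans ?_
        exact div_le_div_of_nonneg_left (abs_nonneg C) (by positivity)
          (pow_le_pow_left₀ hH0.le hKH s)
      have e2 : (B : ℝ) ^ (n + 1) / ((K : ℝ) * H) ^ (∑ i, d i) ≤
          (B : ℝ) ^ (n + 1) / (H : ℝ) ^ (∑ i, d i) :=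
        div_le_div_of_nonneg_left (by positivity) (by positivity)
          (pow_le_pow_left₀ hH0.le hKH _)
      have e3 : (2 * ((K : ℝ) * H) + 1) ^ N ≤ (K : ℝ) ^ N * (2 * (H : ℝ) + 1) ^ N := by
        rw [← mul_pow]
        exact pow_le_pow_left₀ (by positivity) (by nlinarith) N
      have e4 : C / ((K : ℝ) * H) ^ s * (1 + (B : ℝ) ^ (n + 1) / ((K : ℝ) * H) ^ (∑ i, d i)) ≤
          |C| * (1 / (H : ℝ) ^ s) * (1 + (B : ℝ) ^ (n + 1) / (H : ℝ) ^ (∑ i, d i)) := by
        refine (mul_le_mul_of_nonneg_right e1 (by positivity)).trans ?_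
        exact mul_le_mul_of_nonneg_left (by linarith) (by positivity)
      have e5 : (0 : ℝ) ≤ |C| * (1 / (H : ℝ) ^ s) *
          (1 + (B : ℝ) ^ (n + 1) / (H : ℝ) ^ (∑ i, d i)) := by positivity
      calc _ ≤ |C| * (1 / (H : ℝ) ^ s) * (1 + (B : ℝ) ^ (n + 1) / (H : ℝ) ^ (∑ i, d i)) *
            (2 * ((K : ℝ) * H) + 1) ^ N := mul_le_mul_of_nonneg_right e4 (by positivity)
        _ ≤ |C| * (1 / (H : ℝ) ^ s) * (1 + (B : ℝ) ^ (n + 1) / (H : ℝ) ^ (∑ i, d i)) *
            ((K : ℝ) ^ N * (2 * (H : ℝ) + 1) ^ N) := mul_le_mul_of_nonneg_left e3 e5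
        _ = _ := by ring
    refine (pow_le_pow_left₀ (Nat.cast_nonneg _) h4 E).trans (le_of_eq ?_)
    rw [card_families, ← hE]
    push_cast
    rw [mul_pow (|C| * (K : ℝ) ^ N), mul_pow _ ((2 * (H : ℝ) + 1) ^ N),
      mul_pow (1 / (H : ℝ) ^ s), one_div, inv_pow, ← pow_mul (H : ℝ) s E]
    rw [div_eq_mul_inv]
    ring

end Pool.Agent.R870.RC
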